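import Pool.Agent.H93.IF.Space

set_option autoImplicit false
set_option maxHeartbeats 400000

/-!
# MP_299699_an: `(I - f)(C)` need not be closed, even for self-maps and arbitrarily close to Hilbert space
-/

namespace Pool.Agent.Results.MP_299699_an.NearHilbertSelfMap

/-- `X` is `(1 + ε)`-isomorphic to a Hilbert space. -/
def NearHilbert (ε : ℝ) (X : Type) [NormedAddCommGroup X] [NormedSpace ℝ X] : Prop :=
  ∃ (H : Type) (_ : NormedAddCommGroup H) (_ : InnerProductSpace ℝ H) (_ : CompleteSpace H)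
    (e : X ≃L[ℝ] H), ∀ x, ‖x‖ ≤ ‖e x‖ ∧ ‖e x‖ ≤ (1 + ε) * ‖x‖

/-- `X` is reflexive: the canonical map into the second dual is onto. -/
def IsReflexive (X : Type) [NormedAddCommGroup X] [NormedSpace ℝ X] : Prop :=
  Function.Surjective (NormedSpace.inclusionInDoubleDual ℝ X)

/-- Uniform normal structure: bounded convex sets `K` with more than one point have a point
from which all of `K` is within `19 / 20` of the diameter. -/
def UniformNormalStructure (X : Type) [NormedAddCommGroup X] [NormedSpace ℝ X] : Prop :=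
  ∀ K : Set X, Bornology.IsBounded K → Convex ℝ K → (∃ a ∈ K, ∃ b ∈ K, a ≠ b) →
    ∃ x ∈ K, ∀ y ∈ K, dist x y ≤ 19 / 20 * Metric.diam K

/-- `C` is nonempty, closed, bounded, convex and weakly compact. -/
def WeaklyCompactConvex {X : Type} [NormedAddCommGroup X] [NormedSpace ℝ X] (C : Set X) : Prop :=
  C.Nonempty ∧ IsClosed C ∧ Bornology.IsBounded C ∧ Convex ℝ C ∧
    IsCompact ((toWeakSpace ℝ X) '' C)

/-- **The range of `I - f` need not be closed, even if `f` maps `C` into `C` and the norm of `X` is within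
`1 + ε` of a Hilbert norm.** -/
theorem result : ∀ ε : ℝ, 0 < ε →
    ∃ (X : Type) (_ : NormedAddCommGroup X) (_ : NormedSpace ℝ X) (_ : CompleteSpace X),
      NearHilbert ε X ∧ IsReflexive X ∧ UniformNormalStructure X ∧
      ∃ (C : Set X) (f : X → X), WeaklyCompactConvex C ∧
        (∀ x y, dist (f x) (f y) ≤ dist x y) ∧ (∀ x ∈ C, f x ∈ C) ∧
        ¬ IsClosed {z : X | ∃ x ∈ C, z = x - f x} := by
  intro ε hε
  have hδ : 0 < min ε (1 / 20) := lt_min hε (by norm_num)
  obtain ⟨δ, hδ0, hδ1, hδ2⟩ : ∃ δ : ℝ, 0 < |δ| ∧ |δ| ≤ ε ∧ |δ| ≤ 1 / 20 :=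
    ⟨min ε (1 / 20), by rw [abs_of_pos hδ]; exact hδ, by rw [abs_of_pos hδ]; exact min_le_left _ _,
      by rw [abs_of_pos hδ]; exact min_le_right _ _⟩
  refine ⟨H93.IF.X δ, inferInstance, inferInstance, inferInstance,
    ⟨H93.IF.H, inferInstance, inferInstance, inferInstance, H93.IF.e δ, fun x => ⟨H93.IF.norm_le_E δ x, ?_⟩⟩, H93.IF.refl δ, H93.IF.normal δ hδ2,
    H93.IF.C δ, H93.IF.f δ, ⟨H93.IF.C_nonempty δ, H93.IF.C_closed δ, H93.IF.C_bdd δ,
    H93.IF.C_convex δ, H93.IF.C_weak δ⟩,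
    H93.IF.f_nonexp δ, H93.IF.f_maps δ hδ2, H93.IF.range_not_closed δ hδ0⟩
  refine (H93.IF.E_le δ x).trans ?_
  have := norm_nonneg x
  gcongr

end Pool.Agent.Results.MP_299699_an.NearHilbertSelfMap
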